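import Pool.Agent.Y122.TQ.Defs2
import Pool.Agent.Y606.TQ.Msr

/-!
# Project TQ (helper122), part CB: a convexity-type bound
-/

set_option autoImplicit false

namespace Pool.Agent.Y799.TQ.Cb

open Finset Filter Topology MeasureTheory
open Pool.Agent.H306R2.RZ (gm)
open Pool.Agent.H306R2.RG
open Pool.Agent.Y122.TQ
open Pool.Agent.Y606.TQ.Msr (cf_abs summable_vt fam_r)

noncomputable section

theorem fam_a {φ : FD} (hφ : Fam φ) : φ.a = 0 ∨ φ.a = 1 := by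
  obtain ⟨ε, hε, h⟩ := hφ
  have key : (if ε = 1 then 0 else 1 : ℕ) = 0 ∨ (if ε = 1 then 0 else 1 : ℕ) = 1 := by
    split_ifs <;> simp
  rcases h with rfl | rfl | rfl | rfl
  · exact key
  · exact key
  · exact key
  · exact key

theorem exp_bd {y s : ℝ} (hy : 0 < y) (hs0 : 0 ≤ s) (hs : s ≤ 2) :
    y ^ s * Real.exp (-(Real.pi * y)) ≤ 1 := by
  have h1 : y ^ s ≤ 1 + y ^ 2 := by
    rcases le_total y 1 with h | h
    · have := Real.rpow_le_one hy.le h hs0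
      nlinarith [sq_nonneg y]
    · have := Real.rpow_le_rpow_of_exponent_le h hs
      rw [Real.rpow_two] at this
      linarith
  have h2 : 1 + y ^ 2 ≤ Real.exp (Real.pi * y) := by
    have h3 : Real.exp (2 * y) ≤ Real.exp (Real.pi * y) :=
      Real.exp_le_exp.2 (by nlinarith [Real.pi_gt_three])
    have h4 := Real.quadratic_le_exp_of_nonneg (by positivity : 0 ≤ 2 * y)
    nlinarith
  rw [Real.exp_neg, ← div_eq_mul_inv, div_le_one (Real.exp_pos _)]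
  linarith

/-- the constant -/
def Z : ℝ := ∑' n : ℕ, ((n : ℝ) + 1) ^ (-(5 / 4) : ℝ)

theorem Z_sum : Summable (fun n : ℕ => ((n : ℝ) + 1) ^ (-(5 / 4) : ℝ)) := by
  have h := (summable_nat_add_iff 1).2
    (Real.summable_nat_rpow.2 (by norm_num : (-(5 / 4) : ℝ) < -1))
  simpa using h

theorem Z_nonneg : 0 ≤ Z := tsum_nonneg fun n => by positivity

theorem vt_bd {φ : FD} (hφ : Fam φ) (d : ℕ) {v : ℝ} (hv : 0 < v) :
    |vt φ d v| ≤ Z * v ^ (-((φ.a : ℝ) / 2 + 5 / 8)) := by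
  obtain ⟨s, hs⟩ : ∃ s : ℝ, s = (φ.a : ℝ) / 2 + 5 / 8 := ⟨_, rfl⟩
  have hs0 : 0 ≤ s := by rw [hs]; positivity
  have hs2 : s ≤ 2 := by
    rw [hs]
    rcases fam_a hφ with h | h <;> rw [h] <;> norm_num
  rw [← hs]
  have hterm : ∀ n : ℕ, ‖cf φ d (n + 1) * ((n : ℝ) + 1) ^ φ.a *
      Real.exp (-(Real.pi * ((n : ℝ) + 1) ^ 2 * v))‖ ≤
      ((n : ℝ) + 1) ^ (-(5 / 4) : ℝ) * v ^ (-s) := by
    intro n
    obtain ⟨x, hx⟩ : ∃ x : ℝ, x = (n : ℝ) + 1 := ⟨_, rfl⟩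
    have hx0 : 0 < x := by rw [hx]; positivity
    rw [← hx, Real.norm_eq_abs, abs_mul, abs_mul, abs_of_pos (Real.exp_pos _),
      abs_of_nonneg (pow_nonneg hx0.le _)]
    have h1 := cf_abs hφ d (n + 1)
    have key := exp_bd (y := x ^ 2 * v) (s := s) (by positivity) hs0 hs2
    have h2 : (x ^ 2 * v) ^ s = x ^ (2 * s) * v ^ s := by
      rw [Real.mul_rpow (by positivity) hv.le, ← Real.rpow_natCast x 2, ← Real.rpow_mul hx0.le]
      norm_num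
    have h3 : x ^ φ.a = x ^ (2 * s) * x ^ (-(5 / 4) : ℝ) := by
      rw [← Real.rpow_add hx0, ← Real.rpow_natCast]
      congr 1
      rw [hs]; ring
    have h4 : v ^ s * v ^ (-s) = 1 := by
      rw [← Real.rpow_add hv, add_neg_cancel, Real.rpow_zero]
    have e1 : Real.pi * x ^ 2 * v = Real.pi * (x ^ 2 * v) := by ring
    rw [e1]
    have hE := (Real.exp_pos (-(Real.pi * (x ^ 2 * v)))).le
    calc |cf φ d (n + 1)| * x ^ φ.a * Real.exp (-(Real.pi * (x ^ 2 * v)))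
        ≤ 1 * x ^ φ.a * Real.exp (-(Real.pi * (x ^ 2 * v))) := by gcongr
      _ = ((x ^ 2 * v) ^ s * Real.exp (-(Real.pi * (x ^ 2 * v)))) *
          (x ^ (-(5 / 4) : ℝ) * v ^ (-s)) := by
          rw [h2, h3]
          calc 1 * (x ^ (2 * s) * x ^ (-(5 / 4) : ℝ)) * Real.exp (-(Real.pi * (x ^ 2 * v)))
              = x ^ (2 * s) * x ^ (-(5 / 4) : ℝ) * Real.exp (-(Real.pi * (x ^ 2 * v))) *
                (v ^ s * v ^ (-s)) := by rw [h4]; ring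
            _ = _ := by ring
      _ ≤ 1 * (x ^ (-(5 / 4) : ℝ) * v ^ (-s)) := by gcongr
      _ = x ^ (-(5 / 4) : ℝ) * v ^ (-s) := one_mul _
  have hsum : HasSum (fun n : ℕ => ((n : ℝ) + 1) ^ (-(5 / 4) : ℝ) * v ^ (-s))
      (Z * v ^ (-s)) := Z_sum.hasSum.mul_right _
  have := tsum_of_norm_bounded hsum hterm
  rw [Real.norm_eq_abs] at this
  exact this

theorem int_bd {φ : FD} (hφ : Fam φ) (d : ℕ) {w x : ℝ} (hw : 0 < w) (κ : ℝ)
    (hx : -((φ.a : ℝ) / 2 + 5 / 8) + x = κ - 1) (hκ : κ ≤ -(1 / 4)) :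
    |∫ v in Set.Ioi w, vt φ d v * v ^ x| ≤ 4 * Z * w ^ κ := by
  have hlt : κ - 1 < -1 := by linarith
  have hint : IntegrableOn (fun v : ℝ => Z * v ^ (κ - 1)) (Set.Ioi w) :=
    (integrableOn_Ioi_rpow_of_lt hlt hw).const_mul Z
  have h1 : ‖∫ v in Set.Ioi w, vt φ d v * v ^ x‖ ≤ ∫ v in Set.Ioi w, Z * v ^ (κ - 1) := by
    refine norm_integral_le_of_norm_le hint ?_
    rw [ae_restrict_iff' measurableSet_Ioi]
    refine Filter.Eventually.of_forall fun v hv => ?_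
    have hv0 : 0 < v := hw.trans hv
    rw [Real.norm_eq_abs, abs_mul, abs_of_nonneg (Real.rpow_nonneg hv0.le x)]
    calc |vt φ d v| * v ^ x ≤ (Z * v ^ (-((φ.a : ℝ) / 2 + 5 / 8))) * v ^ x := by
          gcongr
          exact vt_bd hφ d hv0
      _ = Z * v ^ (κ - 1) := by rw [mul_assoc, ← Real.rpow_add hv0, hx]
  rw [Real.norm_eq_abs] at h1
  refine h1.trans ?_
  rw [integral_const_mul, integral_Ioi_rpow_of_lt hlt hw, sub_add_cancel]
  have h2 : -w ^ κ / κ ≤ 4 * w ^ κ := by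
    have hwk : 0 < w ^ κ := Real.rpow_pos_of_pos hw κ
    rw [div_le_iff_of_neg (by linarith)]
    nlinarith
  calc Z * (-w ^ κ / κ) ≤ Z * (4 * w ^ κ) := mul_le_mul_of_nonneg_left h2 Z_nonneg
    _ = 4 * Z * w ^ κ := by ring

theorem gm_low : ∃ c : ℝ, 0 < c ∧ ∀ σ : ℝ, 1 / 2 ≤ σ → σ ≤ 7 / 4 → c ≤ gm σ := by
  have hcont : ContinuousOn gm (Set.Icc (1 / 2 : ℝ) (7 / 4)) := by
    intro σ hσ
    have hσ0 : 0 < σ := lt_of_lt_of_le (by norm_num) hσ.1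
    apply ContinuousAt.continuousWithinAt
    unfold gm
    apply ContinuousAt.mul
    · apply ContinuousAt.rpow continuousAt_const (by fun_prop)
      left; exact Real.pi_ne_zero
    · have h1 : ContinuousAt Real.Gamma (σ / 2) := by
        refine (Real.differentiableAt_Gamma fun m hm => ?_).continuousAt
        have : (0 : ℝ) ≤ (m : ℝ) := Nat.cast_nonneg m
        have h2 : 0 < σ / 2 := by positivity
        rw [hm] at h2
        linarith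
      exact ContinuousAt.comp (f := fun σ : ℝ => σ / 2) h1 (by fun_prop)
  obtain ⟨σ0, h0, hmin⟩ := isCompact_Icc.exists_isMinOn
    (⟨1, by norm_num, by norm_num⟩ : (Set.Icc (1 / 2 : ℝ) (7 / 4)).Nonempty) hcont
  refine ⟨gm σ0, ?_, fun σ h1 h2 => hmin ⟨h1, h2⟩⟩
  have hσ0 : 0 < σ0 := lt_of_lt_of_le (by norm_num) h0.1
  unfold gm
  exact mul_pos (Real.rpow_pos_of_pos Real.pi_pos _) (Real.Gamma_pos_of_pos (by positivity))

theorem CB (h : S_AFE) : S_CB := by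
  intro φ hφ
  obtain ⟨c, hc, hgm⟩ := gm_low
  refine ⟨64 * (Z + 1) / c, by have := Z_nonneg; positivity, ?_⟩
  intro d hA hsq δ hδ hδ4
  have hd : d ≠ 0 := hsq.ne_zero
  have hd1 : (1 : ℝ) ≤ d := by exact_mod_cast Nat.one_le_iff_ne_zero.2 hd
  obtain ⟨hr1, hr8⟩ := fam_r hφ
  have hr1' : (1 : ℝ) ≤ φ.r := by exact_mod_cast hr1
  have hr8' : (φ.r : ℝ) ≤ 8 := by exact_mod_cast hr8
  obtain ⟨q, hq⟩ : ∃ q : ℝ, q = (φ.r : ℝ) * d := ⟨_, rfl⟩
  have hq1 : 1 ≤ q := by rw [hq]; nlinarith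
  have hq0 : 0 < q := by linarith
  have hafe := h φ hφ d hA hsq δ hδ hδ4 (1 / ((φ.r : ℝ) * d)) le_rfl
  have hR1 : R1 φ δ (1 / ((φ.r : ℝ) * d)) d = 0 := by
    unfold R1
    exact intervalIntegral.integral_same
  rw [hR1, add_zero] at hafe
  unfold R2 at hafe
  rw [← hq] at hafe
  have hwk : ∀ κ : ℝ, (1 / q) ^ κ = q ^ (-κ) := by
    intro κ
    rw [one_div, Real.inv_rpow hq0.le, Real.rpow_neg hq0.le]
  have ha2 : ((φ.a : ℕ) : ℝ) ≤ 1 := by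
    rcases fam_a hφ with h | h <;> rw [h] <;> norm_num
  have ha0 : (0 : ℝ) ≤ ((φ.a : ℕ) : ℝ) := Nat.cast_nonneg _
  have i1 := int_bd hφ d (w := 1 / q) (x := xe φ δ) (by positivity) (-(3 / 8) + δ / 2)
    (by unfold xe; ring) (by linarith)
  have i2 := int_bd hφ d (w := 1 / q) (x := xe φ (-δ)) (by positivity) (-(3 / 8) - δ / 2)
    (by unfold xe; ring) (by linarith)
  rw [hwk] at i1 i2
  have hZ := Z_nonneg
  have j1 : q ^ (-(-(3 / 8) + δ / 2)) ≤ q ^ (3 / 8 : ℝ) :=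
    Real.rpow_le_rpow_of_exponent_le hq1 (by linarith)
  have j2 : q ^ (-δ) * q ^ (-(-(3 / 8) - δ / 2)) ≤ q ^ (3 / 8 : ℝ) := by
    rw [← Real.rpow_add hq0]
    exact Real.rpow_le_rpow_of_exponent_le hq1 (by linarith)
  have j3 : q ^ (3 / 8 : ℝ) ≤ 8 * (d : ℝ) ^ (3 / 8 : ℝ) := by
    calc q ^ (3 / 8 : ℝ) ≤ (8 * (d : ℝ)) ^ (3 / 8 : ℝ) := by
          apply Real.rpow_le_rpow hq0.le _ (by norm_num)
          rw [hq]; gcongr
      _ = 8 ^ (3 / 8 : ℝ) * (d : ℝ) ^ (3 / 8 : ℝ) := by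
          rw [Real.mul_rpow (by norm_num) (by positivity)]
      _ ≤ 8 ^ (1 : ℝ) * (d : ℝ) ^ (3 / 8 : ℝ) := by
          gcongr
          · norm_num
          · norm_num
      _ = 8 * (d : ℝ) ^ (3 / 8 : ℝ) := by rw [Real.rpow_one]
  have hL : |gm (1 / 2 + δ + φ.a) * LLg φ d (1 / 2 + δ)| ≤ 64 * (Z + 1) * (d : ℝ) ^ (3 / 8 : ℝ) := by
    rw [hafe]
    have hqd : 0 ≤ q ^ (-δ) := Real.rpow_nonneg hq0.le _
    calc |(∫ v in Set.Ioi (1 / q), vt φ d v * v ^ xe φ δ) +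
          q ^ (-δ) * ∫ v in Set.Ioi (1 / q), vt φ d v * v ^ xe φ (-δ)|
        ≤ |∫ v in Set.Ioi (1 / q), vt φ d v * v ^ xe φ δ| +
          |q ^ (-δ) * ∫ v in Set.Ioi (1 / q), vt φ d v * v ^ xe φ (-δ)| := abs_add_le _ _
      _ ≤ 4 * Z * q ^ (-(-(3 / 8) + δ / 2)) +
          q ^ (-δ) * (4 * Z * q ^ (-(-(3 / 8) - δ / 2))) := by
          rw [abs_mul, abs_of_nonneg hqd]
          gcongr
      _ = 4 * Z * q ^ (-(-(3 / 8) + δ / 2)) +
          4 * Z * (q ^ (-δ) * q ^ (-(-(3 / 8) - δ / 2))) := by ring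
      _ ≤ 4 * Z * q ^ (3 / 8 : ℝ) + 4 * Z * q ^ (3 / 8 : ℝ) := by gcongr
      _ = 8 * Z * q ^ (3 / 8 : ℝ) := by ring
      _ ≤ 8 * Z * (8 * (d : ℝ) ^ (3 / 8 : ℝ)) := by gcongr
      _ ≤ 64 * (Z + 1) * (d : ℝ) ^ (3 / 8 : ℝ) := by
          have : (0 : ℝ) ≤ (d : ℝ) ^ (3 / 8 : ℝ) := by positivity
          nlinarith
  have hg := hgm (1 / 2 + δ + φ.a) (by linarith) (by linarith)
  rw [abs_mul, abs_of_pos (lt_of_lt_of_le hc hg)] at hL
  rw [div_mul_eq_mul_div, le_div_iff₀ hc]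
  calc |LLg φ d (1 / 2 + δ)| * c ≤ |LLg φ d (1 / 2 + δ)| * gm (1 / 2 + δ + φ.a) := by gcongr
    _ = gm (1 / 2 + δ + φ.a) * |LLg φ d (1 / 2 + δ)| := mul_comm _ _
    _ ≤ _ := hL

end

end Pool.Agent.Y799.TQ.Cb
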